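import Pool.Agent.W185.SRG.Main
import Pool.Agent.W879.GW.Main

/-!
# The Weisfeiler-Leman dimension of strongly regular graphs is at least of order `log n`

* For every odd prime `p` and every `k ≥ 1` there are two non-isomorphic strongly regular graphs with
  the parameters `((p ^ r)², 3 (p ^ r - 1), p ^ r, 6)` for some `r ≤ 678 k` which the
  `k`-dimensional Weisfeiler-Leman method does not distinguish. They are the Latin square graphs
  of the groups of the starting result `MP_f1a348_lc.GroupWLDimension`. So the dimension is at least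
  `c log n` for infinitely many numbers `n` of vertices; for Latin square graphs this order of
  magnitude is best possible.
* For all `k` and all `b ≥ 15 (2 k + 3)² + 25` there is such a pair with the parameters
  `((2 ^ b)², 3 (2 ^ b - 1), 2 ^ b, 6)`: the construction of `Pool.Agent.W185.SRG` is made
  quantitative. So every dimension is needed for all large `n = 4 ^ b`.
-/

set_option autoImplicit false

namespace Pool.Agent.Results.MP_d81a4d_co.LogDimension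

open Pool.Agent.W185.SRG Pool.Agent.W185.LSQ Pool.Agent.W879.GW

lemma base (κ : ℕ) : 10 + 3 * ((2 * κ + 10 + κ) * 2 ^ κ) < 2 ^ (2 * κ + 10) := by
  have h3 : κ < 2 ^ κ := Nat.lt_two_pow_self
  have h4 : 2 ^ (2 * κ + 10) = 1024 * (2 ^ κ * 2 ^ κ) := by
    rw [pow_add, two_mul, pow_add]
    ring
  rw [h4]
  set u := 2 ^ κ with hu
  have hu1 : 1 ≤ u := by omega
  nlinarith

lemma grow (κ j : ℕ) : 10 + 3 * ((2 * κ + 10 + j + κ) * 2 ^ κ) < 2 ^ (2 * κ + 10 + j) := by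
  induction j with
  | zero => exact base κ
  | succ j ih =>
    have h1 : 2 ^ (2 * κ + 10 + (j + 1)) = 2 * 2 ^ (2 * κ + 10 + j) := by
      rw [← add_assoc, pow_succ]
      ring
    rw [h1]
    have h2 : (2 * κ + 10 + (j + 1) + κ) * 2 ^ κ = (2 * κ + 10 + j + κ) * 2 ^ κ + 2 ^ κ := by ring
    have h3 : 2 ^ κ ≤ (2 * κ + 10 + j + κ) * 2 ^ κ :=
      Nat.le_mul_of_pos_left _ (by omega)
    rw [h2]
    omega

lemma numeric' (κ a : ℕ) (ha : 2 * κ + 10 ≤ a) :
    numData (2 ^ a * 2 ^ κ) 32 < 2 ^ (2 ^ a * 2 ^ a) := by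
  obtain ⟨j, rfl⟩ := Nat.exists_eq_add_of_le ha
  have h1 : ∀ n : ℕ, (2 ^ n) ^ (2 ^ n) * ((2 ^ n) ^ (2 ^ n) * (2 ^ n) ^ (2 ^ n)) =
      2 ^ (3 * (n * 2 ^ n)) := by
    intro n
    rw [← pow_mul, ← pow_add, ← pow_add]
    congr 1
    ring
  unfold numData
  rw [← pow_add, h1]
  set a := 2 * κ + 10 + j with hadef
  have h2 : 32 * (32 * 2 ^ (3 * ((a + κ) * 2 ^ (a + κ)))) =
      2 ^ (10 + 3 * ((a + κ) * 2 ^ (a + κ))) := by
    rw [pow_add 2 10]
    ring
  rw [h2]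
  apply Nat.pow_lt_pow_right (by norm_num)
  have h5 : 2 ^ (a + κ) = 2 ^ a * 2 ^ κ := pow_add _ _ _
  rw [h5]
  have h6 : 0 < 2 ^ a := by positivity
  have h7 := grow κ j
  rw [← hadef] at h7
  set u := 2 ^ κ with hu
  set v := 2 ^ a with hv
  have h8 : 10 + 3 * ((a + κ) * (v * u)) ≤ (10 + 3 * ((a + κ) * u)) * v := by
    have : 10 ≤ 10 * v := by omega
    calc 10 + 3 * ((a + κ) * (v * u)) ≤ 10 * v + 3 * ((a + κ) * (v * u)) := by omega
      _ = (10 + 3 * ((a + κ) * u)) * v := by ring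
  exact lt_of_le_of_lt h8 (Nat.mul_lt_mul_of_pos_right h7 h6)

open Classical in
/-- The quantitative theorem. -/
theorem main' (k b : ℕ) (hb : 15 * (2 * k + 3) ^ 2 + 25 ≤ b) :
    ∃ (V : Type) (_ : Fintype V) (G H : SimpleGraph V),
      G.IsSRGWith ((2 ^ b) ^ 2) (3 * (2 ^ b - 1)) (2 ^ b) 6 ∧
      H.IsSRGWith ((2 ^ b) ^ 2) (3 * (2 ^ b - 1)) (2 ^ b) 6 ∧
      IsEmpty (G ≃g H) ∧ WLEquivalent k G H := by
  obtain ⟨N, hN⟩ : ∃ N : ℕ, N = 2 * k + 3 := ⟨_, rfl⟩
  obtain ⟨κ, hκ⟩ : ∃ κ : ℕ, κ = 5 * (N * N) + 5 := ⟨_, rfl⟩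
  have hb' : 3 * κ + 10 ≤ b := by
    rw [← hN] at hb
    have : N ^ 2 = N * N := pow_two N
    omega
  obtain ⟨a, ha⟩ : ∃ a : ℕ, a + κ = b := ⟨b - κ, by omega⟩
  have haκ : 2 * κ + 10 ≤ a := by omega
  have hNN : N ≤ N * N := Nat.le_mul_self N
  have hNa : N ≤ a := by omega
  have hΓ : Fintype.card (Fin 5 → ZMod 2) = 32 := by
    rw [Fintype.card_fun, ZMod.card, Fintype.card_fin]
    norm_num
  have hAc : Fintype.card (Fin a → ZMod 2) = 2 ^ a := by
    rw [Fintype.card_fun, ZMod.card, Fintype.card_fin]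
  have hQc : Fintype.card (QQ N (Fin a → ZMod 2) (Fin 5 → ZMod 2)) = 2 ^ a * 2 ^ κ := by
    rw [card_QQ, hΓ, hAc]
    congr 1
    rw [hκ, pow_add, pow_mul, ← pow_mul 32 N N]
    norm_num
  have hQ5 : 5 ≤ Fintype.card (QQ N (Fin a → ZMod 2) (Fin 5 → ZMod 2)) := by
    rw [hQc, ← pow_add]
    have h1 : a + κ < 2 ^ (a + κ) := Nat.lt_two_pow_self
    omega
  have hK : numData (Fintype.card (QQ N (Fin a → ZMod 2) (Fin 5 → ZMod 2))) 32 <
      2 ^ (Fintype.card (Fin a → ZMod 2) * Fintype.card (Fin a → ZMod 2)) := by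
    rw [hQc, hAc]
    exact numeric' κ a haκ
  have hA3 : 2 * (1 + N + N * N) < Fintype.card (Fin a → ZMod 2) := by
    rw [hAc]
    have h1 : a < 2 ^ a := Nat.lt_two_pow_self
    omega
  have hd := stdE_isDual (N := N) (a := a) hNa
  let bs : Fin N := ⟨0, by omega⟩
  obtain ⟨h, τ, hiso⟩ := exists_nonIso (Γ := Fin 5 → ZMod 2) hd bs hΓ hQ5 hK hA3
  have hQb : Fintype.card (QQ N (Fin a → ZMod 2) (Fin 5 → ZMod 2)) = 2 ^ b := by
    rw [hQc, ← pow_add, ha]
  have hSRG : ∀ τ : Fin 5 → ZMod 2, (GG (stdE hNa) bs h τ).IsSRGWith ((2 ^ b) ^ 2)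
      (3 * (2 ^ b - 1)) (2 ^ b) 6 := by
    intro τ
    have h1 := IsNet.isSRG (co_isNet (FF (stdE hNa) bs h τ)) (le_trans (by norm_num) hQ5)
    rw [hQb] at h1
    exact h1
  refine ⟨QQ N (Fin a → ZMod 2) (Fin 5 → ZMod 2) × QQ N (Fin a → ZMod 2) (Fin 5 → ZMod 2),
    inferInstance, GG (stdE hNa) bs h 0, GG (stdE hNa) bs h τ, hSRG 0, hSRG τ, hiso, ?_⟩
  exact wlEquivalent_GG 0 τ hd.linearIndependent (by omega) h

open Classical in
theorem isSRG_group {Q : Type} [Group Q] [Fintype Q] (hQ : 1 ≤ Fintype.card Q) :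
    (latinGraph fun a b : Q => a * b).IsSRGWith (Fintype.card Q ^ 2)
      (3 * (Fintype.card Q - 1)) (Fintype.card Q) 6 := by
  have h1 := IsNet.isSRG (co3_isNet (L := fun a b : Q => a * b)
    (fun a b c h => mul_left_cancel h) (fun a b c h => mul_right_cancel h)) hQ
  rw [latinGraph_eq]
  exact h1

open Classical in
/-- (1) For every odd prime `p` and every `k ≥ 1` there are two non-isomorphic strongly regular
graphs with the parameters `((p ^ r)², 3 (p ^ r - 1), p ^ r, 6)`, for some `r ≤ 678 k`, which the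
`k`-dimensional Weisfeiler-Leman method does not distinguish. (2) For all `k` and all
`b ≥ 15 (2 k + 3)² + 25` there are two non-isomorphic strongly regular graphs with the
parameters `((2 ^ b)², 3 (2 ^ b - 1), 2 ^ b, 6)` which the `k`-dimensional Weisfeiler-Leman method
does not distinguish. -/
theorem result :
    (∀ p : ℕ, p.Prime → p ≠ 2 → ∀ k : ℕ, 1 ≤ k →
      ∃ (r : ℕ) (V W : Type) (_ : Fintype V) (_ : Fintype W) (G : SimpleGraph V)
        (H : SimpleGraph W), r ≤ 678 * k ∧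
        G.IsSRGWith ((p ^ r) ^ 2) (3 * (p ^ r - 1)) (p ^ r) 6 ∧
        H.IsSRGWith ((p ^ r) ^ 2) (3 * (p ^ r - 1)) (p ^ r) 6 ∧
        IsEmpty (G ≃g H) ∧ WLEquivalent k G H) ∧
    ∀ k b : ℕ, 15 * (2 * k + 3) ^ 2 + 25 ≤ b →
      ∃ (V : Type) (_ : Fintype V) (G H : SimpleGraph V),
        G.IsSRGWith ((2 ^ b) ^ 2) (3 * (2 ^ b - 1)) (2 ^ b) 6 ∧
        H.IsSRGWith ((2 ^ b) ^ 2) (3 * (2 ^ b - 1)) (2 ^ b) 6 ∧
        IsEmpty (G ≃g H) ∧ WLEquivalent k G H := by
  refine ⟨fun p hp hp2 k hk => ?_, main'⟩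
  obtain ⟨G, H, _, _, _, _, r, hr, hG, hH, -, -, -, h1, h2⟩ :=
    Pool.Agent.W879.GW.main p hp hp2 k hk
  have hpos : 1 ≤ p ^ r := Nat.one_le_pow _ _ hp.pos
  refine ⟨r, G × G, H × H, inferInstance, inferInstance, latinGraph fun a b : G => a * b,
    latinGraph fun a b : H => a * b, hr, ?_, ?_, h1, h2⟩
  · have h3 := isSRG_group (Q := G) (by omega)
    rw [hG] at h3
    exact h3
  · have h3 := isSRG_group (Q := H) (by omega)
    rw [hH] at h3
    exact h3

end Pool.Agent.Results.MP_d81a4d_co.LogDimension
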